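import Mathlib

set_option autoImplicit false

namespace Pool.Agent.N689.OsasmPf

/-- The exponent of the monomial `x^a y^b`. -/
noncomputable def ex (a b : ℕ) : Fin 2 →₀ ℕ := Finsupp.single 0 a + Finsupp.single 1 b

/-- The power series `(y - x) / ((1 - x y) (1 - x - y))` with rational coefficients, where
`x` is the variable with index `0` and `y` the variable with index `1`. -/
noncomputable def ser : MvPowerSeries (Fin 2) ℚ :=
  (MvPowerSeries.X 1 - MvPowerSeries.X 0) *
    ((1 - MvPowerSeries.X 0 * MvPowerSeries.X 1) *
      (1 - MvPowerSeries.X 0 - MvPowerSeries.X 1))⁻¹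

/-- The coefficient of `x^a y^b` in `(y - x) / ((1 - x y) (1 - x - y))`. -/
noncomputable def c (a b : ℕ) : ℚ := MvPowerSeries.coeff (ex a b) ser

/-- The skew-symmetric `m × m` array whose entry above the diagonal at `(a, b)` is `c a b` when
`b` is not the last index, and `w a` when `b` is the last index. -/
noncomputable def arr (m : ℕ) (w : ℕ → ℚ) : Matrix (Fin m) (Fin m) ℚ := fun i j =>
  if i < j then (if (j : ℕ) + 1 = m then w i else c i j)
  else if j < i then - (if (i : ℕ) + 1 = m then w j else c j i)
  else 0

end Pool.Agent.N689.OsasmPf
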