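import Mathlib
import Pool.Agent.N689.OsasmDefs

set_option autoImplicit false

namespace Pool.Agent.N689.OsasmPf

open Finset

theorem ex_le (i j a b : ℕ) : ex i j ≤ ex a b ↔ i ≤ a ∧ j ≤ b := by
  constructor
  · intro h
    have h0 := h 0
    have h1 := h 1
    simp [ex] at h0 h1
    exact ⟨h0, h1⟩
  · rintro ⟨h0, h1⟩ k
    fin_cases k <;> simp [ex, h0, h1]

theorem ex_sub (i j a b : ℕ) : ex a b - ex i j = ex (a - i) (b - j) := by
  ext k
  fin_cases k <;> simp [ex]

theorem ex_inj (i j a b : ℕ) : ex a b = ex i j ↔ a = i ∧ b = j := by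
  constructor
  · intro h
    have h0 := DFunLike.congr_fun h 0
    have h1 := DFunLike.congr_fun h 1
    simp [ex] at h0 h1
    exact ⟨h0, h1⟩
  · rintro ⟨h0, h1⟩
    rw [h0, h1]

theorem mon_eq (i j : ℕ) : (MvPowerSeries.X 0 ^ i * MvPowerSeries.X 1 ^ j :
    MvPowerSeries (Fin 2) ℚ) = MvPowerSeries.monomial (ex i j) 1 := by
  rw [MvPowerSeries.X_pow_eq, MvPowerSeries.X_pow_eq, MvPowerSeries.monomial_mul_monomial]
  simp [ex]

theorem co (φ : MvPowerSeries (Fin 2) ℚ) (i j a b : ℕ) :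
    MvPowerSeries.coeff (ex a b) (φ * (MvPowerSeries.X 0 ^ i * MvPowerSeries.X 1 ^ j)) =
      if i ≤ a ∧ j ≤ b then MvPowerSeries.coeff (ex (a - i) (b - j)) φ else 0 := by
  rw [mon_eq, MvPowerSeries.coeff_mul_monomial, ex_sub, mul_one]
  simp only [ex_le]

theorem ser_mul : ser * ((1 - MvPowerSeries.X 0 * MvPowerSeries.X 1) *
    (1 - MvPowerSeries.X 0 - MvPowerSeries.X 1)) =
    MvPowerSeries.X 1 - MvPowerSeries.X 0 := by
  unfold ser
  rw [mul_assoc, MvPowerSeries.inv_mul_cancel, mul_one]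
  simp

theorem master (a b : ℕ) :
    c a b - (if 1 ≤ a ∧ 0 ≤ b then c (a - 1) (b - 0) else 0)
      - (if 0 ≤ a ∧ 1 ≤ b then c (a - 0) (b - 1) else 0)
      - (if 1 ≤ a ∧ 1 ≤ b then c (a - 1) (b - 1) else 0)
      + (if 2 ≤ a ∧ 1 ≤ b then c (a - 2) (b - 1) else 0)
      + (if 1 ≤ a ∧ 2 ≤ b then c (a - 1) (b - 2) else 0)
    = (if a = 0 ∧ b = 1 then 1 else 0) - (if a = 1 ∧ b = 0 then 1 else 0) := by
  have h := congrArg (MvPowerSeries.coeff (ex a b)) ser_mul
  have e1 : ser * ((1 - MvPowerSeries.X 0 * MvPowerSeries.X 1) *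
      (1 - MvPowerSeries.X 0 - MvPowerSeries.X 1)) =
      ser - ser * (MvPowerSeries.X 0 ^ 1 * MvPowerSeries.X 1 ^ 0)
        - ser * (MvPowerSeries.X 0 ^ 0 * MvPowerSeries.X 1 ^ 1)
        - ser * (MvPowerSeries.X 0 ^ 1 * MvPowerSeries.X 1 ^ 1)
        + ser * (MvPowerSeries.X 0 ^ 2 * MvPowerSeries.X 1 ^ 1)
        + ser * (MvPowerSeries.X 0 ^ 1 * MvPowerSeries.X 1 ^ 2) := by
    ring
  have e2 : (MvPowerSeries.X 1 - MvPowerSeries.X 0 : MvPowerSeries (Fin 2) ℚ) =
      MvPowerSeries.X 0 ^ 0 * MvPowerSeries.X 1 ^ 1 -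
        MvPowerSeries.X 0 ^ 1 * MvPowerSeries.X 1 ^ 0 := by
    ring
  rw [e1, e2] at h
  simp only [map_sub, map_add, co] at h
  rw [mon_eq, mon_eq, MvPowerSeries.coeff_monomial, MvPowerSeries.coeff_monomial] at h
  simp only [ex_inj] at h
  exact h

theorem c00 : c 0 0 = 0 := by simpa using master 0 0

theorem c01 : c 0 1 = 1 := by simpa [c00] using master 0 1

theorem c0s (k : ℕ) : c 0 (k + 2) = c 0 (k + 1) := by
  have h := master 0 (k + 2)
  simp at h
  linarith

theorem c10 : c 1 0 = -1 := by simpa [c00] using master 1 0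

theorem c11 : c 1 1 = 0 := by simpa [c00, c01, c10] using master 1 1

theorem c1s (k : ℕ) : c 1 (k + 2) - c 0 (k + 2) - c 1 (k + 1) - c 0 (k + 1) + c 0 k = 0 := by
  have h := master 1 (k + 2)
  simp at h
  linarith

theorem cs0 (k : ℕ) : c (k + 2) 0 = c (k + 1) 0 := by
  have h := master (k + 2) 0
  simp at h
  linarith

theorem cs1 (k : ℕ) : c (k + 2) 1 - c (k + 1) 1 - c (k + 2) 0 - c (k + 1) 0 + c k 0 = 0 := by
  have h := master (k + 2) 1
  simp at h
  linarith

theorem css (k l : ℕ) : c (k + 2) (l + 2) - c (k + 1) (l + 2) - c (k + 2) (l + 1)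
    - c (k + 1) (l + 1) + c k (l + 1) + c (k + 1) l = 0 := by
  have h := master (k + 2) (l + 2)
  simp at h
  linarith

/-- Two arrays with the same recurrences agree. -/
theorem uniq (d : ℕ → ℕ → ℚ) (h00 : d 0 0 = 0) (h01 : d 0 1 = 1)
    (h0s : ∀ k, d 0 (k + 2) = d 0 (k + 1)) (h10 : d 1 0 = -1) (h11 : d 1 1 = 0)
    (h1s : ∀ k, d 1 (k + 2) - d 0 (k + 2) - d 1 (k + 1) - d 0 (k + 1) + d 0 k = 0)
    (hs0 : ∀ k, d (k + 2) 0 = d (k + 1) 0)
    (hs1 : ∀ k, d (k + 2) 1 - d (k + 1) 1 - d (k + 2) 0 - d (k + 1) 0 + d k 0 = 0)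
    (hss : ∀ k l, d (k + 2) (l + 2) - d (k + 1) (l + 2) - d (k + 2) (l + 1)
      - d (k + 1) (l + 1) + d k (l + 1) + d (k + 1) l = 0) :
    ∀ a b, d a b = c a b := by
  have key : ∀ s a b, a + b = s → d a b = c a b := by
    intro s
    induction s using Nat.strong_induction_on with
    | _ s ih =>
      intro a b hab
      match a, b, hab with
      | 0, 0, _ => rw [h00, c00]
      | 0, 1, _ => rw [h01, c01]
      | 0, (k + 2), hab => rw [h0s, c0s]; exact ih _ (by omega) 0 (k + 1) rfl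
      | 1, 0, _ => rw [h10, c10]
      | 1, 1, _ => rw [h11, c11]
      | 1, (k + 2), hab =>
        have e1 := ih (0 + (k + 2)) (by omega) 0 (k + 2) rfl
        have e2 := ih (1 + (k + 1)) (by omega) 1 (k + 1) rfl
        have e3 := ih (0 + (k + 1)) (by omega) 0 (k + 1) rfl
        have e4 := ih (0 + k) (by omega) 0 k rfl
        have e5 := h1s k
        have e6 := c1s k
        linarith
      | (k + 2), 0, hab => rw [hs0, cs0]; exact ih _ (by omega) (k + 1) 0 rfl
      | (k + 2), 1, hab =>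
        have e1 := ih ((k + 2) + 0) (by omega) (k + 2) 0 rfl
        have e2 := ih ((k + 1) + 1) (by omega) (k + 1) 1 rfl
        have e3 := ih ((k + 1) + 0) (by omega) (k + 1) 0 rfl
        have e4 := ih (k + 0) (by omega) k 0 rfl
        have e5 := hs1 k
        have e6 := cs1 k
        linarith
      | (k + 2), (l + 2), hab =>
        have e1 := ih ((k + 1) + (l + 2)) (by omega) (k + 1) (l + 2) rfl
        have e2 := ih ((k + 2) + (l + 1)) (by omega) (k + 2) (l + 1) rfl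
        have e3 := ih ((k + 1) + (l + 1)) (by omega) (k + 1) (l + 1) rfl
        have e4 := ih (k + (l + 1)) (by omega) k (l + 1) rfl
        have e5 := ih ((k + 1) + l) (by omega) (k + 1) l rfl
        have e6 := hss k l
        have e7 := css k l
        linarith
  intro a b
  exact key (a + b) a b rfl

theorem c_anti (a b : ℕ) : c a b = - c b a := by
  have h := uniq (fun a b => - c b a) (by simp [c00]) (by simp [c10])
    (by intro k; simp [cs0]) (by simp [c01]) (by simp [c11])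
    (by intro k; have := cs1 k; linarith)
    (by intro k; simp [c0s])
    (by intro k; have := c1s k; linarith)
    (by intro k l; have := css l k; linarith) a b
  exact h.symm

theorem c_self (a : ℕ) : c a a = 0 := by
  have := c_anti a a
  linarith

/-- The linear functional with `x^a y^b ↦ c a b`. -/
noncomputable def L : MvPolynomial (Fin 2) ℚ →ₗ[ℚ] ℚ :=
  (MvPolynomial.basisMonomials (Fin 2) ℚ).constr ℚ (fun m => MvPowerSeries.coeff m ser)

theorem L_mon (a b : ℕ) : L (MvPolynomial.X 0 ^ a * MvPolynomial.X 1 ^ b) = c a b := by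
  have h : (MvPolynomial.X 0 ^ a * MvPolynomial.X 1 ^ b : MvPolynomial (Fin 2) ℚ) =
      MvPolynomial.basisMonomials (Fin 2) ℚ (ex a b) := by
    rw [MvPolynomial.coe_basisMonomials, MvPolynomial.X_pow_eq_monomial,
      MvPolynomial.X_pow_eq_monomial, MvPolynomial.monomial_mul]
    simp [ex]
  rw [h, L, Module.Basis.constr_basis]
  rfl

/-- `T a b` is the value of the functional at `(1 - x)^a (1 - y)^b`. -/
noncomputable def T (a b : ℕ) : ℚ :=
  L ((1 - MvPolynomial.X 0) ^ a * (1 - MvPolynomial.X 1) ^ b)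

theorem annY (r : MvPolynomial (Fin 2) ℚ) (h : ∀ k : ℕ, L (MvPolynomial.X 1 ^ k * r) = 0) :
    ∀ b k : ℕ, L ((1 - MvPolynomial.X 1) ^ b * (MvPolynomial.X 1 ^ k * r)) = 0 := by
  intro b
  induction b with
  | zero => intro k; simpa using h k
  | succ b ih =>
    intro k
    have e : (1 - MvPolynomial.X 1) ^ (b + 1) * (MvPolynomial.X 1 ^ k * r) =
        (1 - MvPolynomial.X 1) ^ b * (MvPolynomial.X 1 ^ k * r) -
        (1 - MvPolynomial.X 1) ^ b * (MvPolynomial.X 1 ^ (k + 1) * r) := by ring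
    rw [e, map_sub, ih k, ih (k + 1), sub_zero]

theorem annX (r : MvPolynomial (Fin 2) ℚ) (h : ∀ k : ℕ, L (MvPolynomial.X 0 ^ k * r) = 0) :
    ∀ b k : ℕ, L ((1 - MvPolynomial.X 0) ^ b * (MvPolynomial.X 0 ^ k * r)) = 0 := by
  intro b
  induction b with
  | zero => intro k; simpa using h k
  | succ b ih =>
    intro k
    have e : (1 - MvPolynomial.X 0) ^ (b + 1) * (MvPolynomial.X 0 ^ k * r) =
        (1 - MvPolynomial.X 0) ^ b * (MvPolynomial.X 0 ^ k * r) -
        (1 - MvPolynomial.X 0) ^ b * (MvPolynomial.X 0 ^ (k + 1) * r) := by ring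
    rw [e, map_sub, ih k, ih (k + 1), sub_zero]

theorem annXY (r : MvPolynomial (Fin 2) ℚ)
    (h : ∀ i j : ℕ, L (MvPolynomial.X 0 ^ i * MvPolynomial.X 1 ^ j * r) = 0) (a b : ℕ) :
    L ((1 - MvPolynomial.X 0) ^ a * (1 - MvPolynomial.X 1) ^ b * r) = 0 := by
  have h1 : ∀ i : ℕ, L (MvPolynomial.X 0 ^ i * ((1 - MvPolynomial.X 1) ^ b * r)) = 0 := by
    intro i
    have h2 := annY (MvPolynomial.X 0 ^ i * r) (fun k => by
      have := h i k
      rw [← this]; congr 1; ring) b 0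
    rw [← h2]; congr 1; ring
  have h3 := annX _ h1 a 0
  rw [← h3]; congr 1; ring

theorem L_row0 (k : ℕ) : L (MvPolynomial.X 1 ^ k) = c 0 k := by
  have := L_mon 0 k
  simpa using this

theorem L_col0 (k : ℕ) : L (MvPolynomial.X 0 ^ k) = c k 0 := by
  have := L_mon k 0
  simpa using this

theorem ann0 (b : ℕ) : L ((1 - MvPolynomial.X 1) ^ b *
    (MvPolynomial.X 1 ^ 2 - MvPolynomial.X 1)) = 0 := by
  have h := annY (MvPolynomial.X 1 ^ 2 - MvPolynomial.X 1) (fun k => by
    have e : (MvPolynomial.X 1 ^ k * (MvPolynomial.X 1 ^ 2 - MvPolynomial.X 1) :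
        MvPolynomial (Fin 2) ℚ) = MvPolynomial.X 1 ^ (k + 2) - MvPolynomial.X 1 ^ (k + 1) := by
      ring
    rw [e, map_sub, L_row0, L_row0, c0s, sub_self]) b 0
  simpa using h

theorem ann0' (b : ℕ) : L ((1 - MvPolynomial.X 0) ^ b *
    (MvPolynomial.X 0 ^ 2 - MvPolynomial.X 0)) = 0 := by
  have h := annX (MvPolynomial.X 0 ^ 2 - MvPolynomial.X 0) (fun k => by
    have e : (MvPolynomial.X 0 ^ k * (MvPolynomial.X 0 ^ 2 - MvPolynomial.X 0) :
        MvPolynomial (Fin 2) ℚ) = MvPolynomial.X 0 ^ (k + 2) - MvPolynomial.X 0 ^ (k + 1) := by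
      ring
    rw [e, map_sub, L_col0, L_col0, cs0, sub_self]) b 0
  simpa using h

theorem ann1 (b : ℕ) : L ((1 - MvPolynomial.X 1) ^ b *
    (MvPolynomial.X 0 * MvPolynomial.X 1 ^ 2 - MvPolynomial.X 1 ^ 2
      - MvPolynomial.X 0 * MvPolynomial.X 1 - MvPolynomial.X 1 + 1)) = 0 := by
  have h := annY (MvPolynomial.X 0 * MvPolynomial.X 1 ^ 2 - MvPolynomial.X 1 ^ 2
      - MvPolynomial.X 0 * MvPolynomial.X 1 - MvPolynomial.X 1 + 1) (fun k => by
    have e : (MvPolynomial.X 1 ^ k * (MvPolynomial.X 0 * MvPolynomial.X 1 ^ 2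
        - MvPolynomial.X 1 ^ 2 - MvPolynomial.X 0 * MvPolynomial.X 1 - MvPolynomial.X 1 + 1) :
        MvPolynomial (Fin 2) ℚ) =
        MvPolynomial.X 0 ^ 1 * MvPolynomial.X 1 ^ (k + 2) - MvPolynomial.X 1 ^ (k + 2)
        - MvPolynomial.X 0 ^ 1 * MvPolynomial.X 1 ^ (k + 1) - MvPolynomial.X 1 ^ (k + 1)
        + MvPolynomial.X 1 ^ k := by
      ring
    rw [e]
    simp only [map_sub, map_add, L_row0, L_mon]
    exact c1s k) b 0
  simpa using h

theorem ann1' (b : ℕ) : L ((1 - MvPolynomial.X 0) ^ b *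
    (MvPolynomial.X 0 ^ 2 * MvPolynomial.X 1 - MvPolynomial.X 0 ^ 2
      - MvPolynomial.X 0 * MvPolynomial.X 1 - MvPolynomial.X 0 + 1)) = 0 := by
  have h := annX (MvPolynomial.X 0 ^ 2 * MvPolynomial.X 1 - MvPolynomial.X 0 ^ 2
      - MvPolynomial.X 0 * MvPolynomial.X 1 - MvPolynomial.X 0 + 1) (fun k => by
    have e : (MvPolynomial.X 0 ^ k * (MvPolynomial.X 0 ^ 2 * MvPolynomial.X 1
        - MvPolynomial.X 0 ^ 2 - MvPolynomial.X 0 * MvPolynomial.X 1 - MvPolynomial.X 0 + 1) :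
        MvPolynomial (Fin 2) ℚ) =
        MvPolynomial.X 0 ^ (k + 2) * MvPolynomial.X 1 ^ 1 - MvPolynomial.X 0 ^ (k + 2)
        - MvPolynomial.X 0 ^ (k + 1) * MvPolynomial.X 1 ^ 1 - MvPolynomial.X 0 ^ (k + 1)
        + MvPolynomial.X 0 ^ k := by
      ring
    rw [e]
    simp only [map_sub, map_add, L_col0, L_mon]
    have := cs1 k
    linarith) b 0
  simpa using h

theorem annp (a b : ℕ) : L ((1 - MvPolynomial.X 0) ^ a * (1 - MvPolynomial.X 1) ^ b *
    (MvPolynomial.X 0 ^ 2 * MvPolynomial.X 1 ^ 2 - MvPolynomial.X 0 ^ 2 * MvPolynomial.X 1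
      - MvPolynomial.X 0 * MvPolynomial.X 1 ^ 2 - MvPolynomial.X 0 * MvPolynomial.X 1
      + MvPolynomial.X 0 + MvPolynomial.X 1)) = 0 := by
  refine annXY _ (fun i j => ?_) a b
  have e : (MvPolynomial.X 0 ^ i * MvPolynomial.X 1 ^ j *
      (MvPolynomial.X 0 ^ 2 * MvPolynomial.X 1 ^ 2 - MvPolynomial.X 0 ^ 2 * MvPolynomial.X 1
      - MvPolynomial.X 0 * MvPolynomial.X 1 ^ 2 - MvPolynomial.X 0 * MvPolynomial.X 1
      + MvPolynomial.X 0 + MvPolynomial.X 1) : MvPolynomial (Fin 2) ℚ) =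
      MvPolynomial.X 0 ^ (i + 2) * MvPolynomial.X 1 ^ (j + 2)
      - MvPolynomial.X 0 ^ (i + 1) * MvPolynomial.X 1 ^ (j + 2)
      - MvPolynomial.X 0 ^ (i + 2) * MvPolynomial.X 1 ^ (j + 1)
      - MvPolynomial.X 0 ^ (i + 1) * MvPolynomial.X 1 ^ (j + 1)
      + MvPolynomial.X 0 ^ i * MvPolynomial.X 1 ^ (j + 1)
      + MvPolynomial.X 0 ^ (i + 1) * MvPolynomial.X 1 ^ j := by
    ring
  rw [e]
  simp only [map_sub, map_add, L_mon]
  exact css i j

theorem T_eq (a b : ℕ) : T a b = - c a b := by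
  have t00 : T 0 0 = 0 := by
    have := L_mon 0 0
    simp only [pow_zero, mul_one] at this
    simp [T, this, c00]
  have h1 : L 1 = 0 := by
    have := L_mon 0 0
    simp only [pow_zero, mul_one] at this
    rw [this, c00]
  have hx : L (MvPolynomial.X 0) = -1 := by
    have := L_mon 1 0
    simp only [pow_zero, mul_one, pow_one] at this
    rw [this, c10]
  have hy : L (MvPolynomial.X 1) = 1 := by
    have := L_mon 0 1
    simp only [pow_zero, one_mul, pow_one] at this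
    rw [this, c01]
  have hxy : L (MvPolynomial.X 0 * MvPolynomial.X 1) = 0 := by
    have := L_mon 1 1
    simp only [pow_one] at this
    rw [this, c11]
  have h := uniq (fun a b => - T a b) (by simp [t00])
    (by simp [T, h1, hy])
    (by
      intro k
      have e := ann0 k
      have e2 : (1 - MvPolynomial.X 1 : MvPolynomial (Fin 2) ℚ) ^ k *
          (MvPolynomial.X 1 ^ 2 - MvPolynomial.X 1) =
          (1 - MvPolynomial.X 0) ^ 0 * (1 - MvPolynomial.X 1) ^ (k + 2) -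
          (1 - MvPolynomial.X 0) ^ 0 * (1 - MvPolynomial.X 1) ^ (k + 1) := by ring
      rw [e2, map_sub] at e
      simp only [T]
      linarith)
    (by simp [T, h1, hx])
    (by
      have e2 : (1 - MvPolynomial.X 0 : MvPolynomial (Fin 2) ℚ) ^ 1 *
          (1 - MvPolynomial.X 1) ^ 1 = 1 - MvPolynomial.X 0 - MvPolynomial.X 1 +
          MvPolynomial.X 0 * MvPolynomial.X 1 := by ring
      simp only [T, e2, map_sub, map_add, h1, hx, hy, hxy]
      norm_num)
    (by
      intro k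
      have e := ann0 k
      have f := ann1 k
      have g : (1 - MvPolynomial.X 0 : MvPolynomial (Fin 2) ℚ) ^ 1 *
            (1 - MvPolynomial.X 1) ^ (k + 2)
          - (1 - MvPolynomial.X 0) ^ 0 * (1 - MvPolynomial.X 1) ^ (k + 2)
          - (1 - MvPolynomial.X 0) ^ 1 * (1 - MvPolynomial.X 1) ^ (k + 1)
          - (1 - MvPolynomial.X 0) ^ 0 * (1 - MvPolynomial.X 1) ^ (k + 1)
          + (1 - MvPolynomial.X 0) ^ 0 * (1 - MvPolynomial.X 1) ^ k
          = - ((1 - MvPolynomial.X 1) ^ k *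
            (MvPolynomial.X 1 ^ 2 - MvPolynomial.X 1)) -
            ((1 - MvPolynomial.X 1) ^ k *
            (MvPolynomial.X 0 * MvPolynomial.X 1 ^ 2 - MvPolynomial.X 1 ^ 2
              - MvPolynomial.X 0 * MvPolynomial.X 1 - MvPolynomial.X 1 + 1)) := by ring
      have g2 := congrArg L g
      rw [map_sub, map_neg, e, f] at g2
      simp only [map_sub, map_add] at g2
      simp only [T]
      linarith)
    (by
      intro k
      have e := ann0' k
      have e2 : (1 - MvPolynomial.X 0 : MvPolynomial (Fin 2) ℚ) ^ k *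
          (MvPolynomial.X 0 ^ 2 - MvPolynomial.X 0) =
          (1 - MvPolynomial.X 0) ^ (k + 2) * (1 - MvPolynomial.X 1) ^ 0 -
          (1 - MvPolynomial.X 0) ^ (k + 1) * (1 - MvPolynomial.X 1) ^ 0 := by ring
      rw [e2, map_sub] at e
      simp only [T]
      linarith)
    (by
      intro k
      have e := ann0' k
      have f := ann1' k
      have g : (1 - MvPolynomial.X 0 : MvPolynomial (Fin 2) ℚ) ^ (k + 2) *
            (1 - MvPolynomial.X 1) ^ 1
          - (1 - MvPolynomial.X 0) ^ (k + 1) * (1 - MvPolynomial.X 1) ^ 1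
          - (1 - MvPolynomial.X 0) ^ (k + 2) * (1 - MvPolynomial.X 1) ^ 0
          - (1 - MvPolynomial.X 0) ^ (k + 1) * (1 - MvPolynomial.X 1) ^ 0
          + (1 - MvPolynomial.X 0) ^ k * (1 - MvPolynomial.X 1) ^ 0
          = - ((1 - MvPolynomial.X 0) ^ k *
            (MvPolynomial.X 0 ^ 2 - MvPolynomial.X 0)) -
            ((1 - MvPolynomial.X 0) ^ k *
            (MvPolynomial.X 0 ^ 2 * MvPolynomial.X 1 - MvPolynomial.X 0 ^ 2
              - MvPolynomial.X 0 * MvPolynomial.X 1 - MvPolynomial.X 0 + 1)) := by ring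
      have g2 := congrArg L g
      rw [map_sub, map_neg, e, f] at g2
      simp only [map_sub, map_add] at g2
      simp only [T]
      linarith)
    (by
      intro k l
      have f := annp k l
      have g : (1 - MvPolynomial.X 0 : MvPolynomial (Fin 2) ℚ) ^ (k + 2) *
            (1 - MvPolynomial.X 1) ^ (l + 2)
          - (1 - MvPolynomial.X 0) ^ (k + 1) * (1 - MvPolynomial.X 1) ^ (l + 2)
          - (1 - MvPolynomial.X 0) ^ (k + 2) * (1 - MvPolynomial.X 1) ^ (l + 1)
          - (1 - MvPolynomial.X 0) ^ (k + 1) * (1 - MvPolynomial.X 1) ^ (l + 1)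
          + (1 - MvPolynomial.X 0) ^ k * (1 - MvPolynomial.X 1) ^ (l + 1)
          + (1 - MvPolynomial.X 0) ^ (k + 1) * (1 - MvPolynomial.X 1) ^ l
          = (1 - MvPolynomial.X 0) ^ k * (1 - MvPolynomial.X 1) ^ l *
            (MvPolynomial.X 0 ^ 2 * MvPolynomial.X 1 ^ 2
              - MvPolynomial.X 0 ^ 2 * MvPolynomial.X 1
              - MvPolynomial.X 0 * MvPolynomial.X 1 ^ 2 - MvPolynomial.X 0 * MvPolynomial.X 1
              + MvPolynomial.X 0 + MvPolynomial.X 1) := by ring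
      have g2 := congrArg L g
      rw [f] at g2
      simp only [map_sub, map_add] at g2
      simp only [T]
      linarith) a b
  linarith

end Pool.Agent.N689.OsasmPf
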