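import Mathlib
import Pool.Agent.Helper929.Pfaffian
import Pool.Agent.N689.OsasmSer

set_option autoImplicit false

namespace Pool.Agent.N689.OsasmPf

open Finset Pool.Agent.Helper929

theorem pf_congr : ∀ (n : ℕ) (A B : Matrix (Fin n) (Fin n) ℚ),
    (∀ i j, i < j → A i j = B i j) → pf n A = pf n B
  | 0, _, _, _ => rfl
  | 1, _, _, _ => rfl
  | (n + 2), A, B, h => by
    simp only [pf]
    apply Finset.sum_congr rfl
    intro j _
    rw [h 0 j.succ (Fin.succ_pos j)]
    rw [pf_congr n _ (B.submatrix (fun k => (j.succAbove k).succ)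
      (fun k => (j.succAbove k).succ))]
    intro a b hab
    apply h
    rw [Fin.succ_lt_succ_iff]
    exact Fin.strictMono_succAbove j hab

theorem pf_neg : ∀ (n : ℕ) (A : Matrix (Fin n) (Fin n) ℚ),
    pf n (-A) = (-1) ^ (n / 2) * pf n A
  | 0, _ => by simp [pf]
  | 1, _ => by simp [pf]
  | (n + 2), A => by
    simp only [pf]
    rw [Finset.mul_sum]
    apply Finset.sum_congr rfl
    intro j _
    have h1 : (-A).submatrix (fun k => (j.succAbove k).succ) (fun k => (j.succAbove k).succ) =
      - (A.submatrix (fun k => (j.succAbove k).succ) (fun k => (j.succAbove k).succ)) := rfl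
    have h2 : (n + 2) / 2 = n / 2 + 1 := by omega
    rw [h1, pf_neg n, h2, pow_succ, Matrix.neg_apply]
    ring

theorem pf_lin : ∀ (m : ℕ) (A B C : Matrix (Fin (m + 1)) (Fin (m + 1)) ℚ) (α β : ℚ),
    (∀ i j, i < j → j ≠ Fin.last m → A i j = B i j) →
    (∀ i j, i < j → j ≠ Fin.last m → A i j = C i j) →
    (∀ i, i < Fin.last m → A i (Fin.last m) = α * B i (Fin.last m) + β * C i (Fin.last m)) →
    pf (m + 1) A = α * pf (m + 1) B + β * pf (m + 1) C
  | 0, _, _, _, _, _, _, _, _ => by simp [pf]
  | 1, A, B, C, α, β, _, _, h3 => by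
    simp only [pf]
    have := h3 0 (by decide)
    simp at this
    simp [this]
  | (m + 2), A, B, C, α, β, h1, h2, h3 => by
    have key : ∀ j : Fin (m + 2), (-1 : ℚ) ^ (j : ℕ) * A 0 j.succ *
        pf (m + 1) (A.submatrix (fun k => (j.succAbove k).succ)
          (fun k => (j.succAbove k).succ)) =
        α * ((-1 : ℚ) ^ (j : ℕ) * B 0 j.succ *
        pf (m + 1) (B.submatrix (fun k => (j.succAbove k).succ)
          (fun k => (j.succAbove k).succ))) +
        β * ((-1 : ℚ) ^ (j : ℕ) * C 0 j.succ *
        pf (m + 1) (C.submatrix (fun k => (j.succAbove k).succ)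
          (fun k => (j.succAbove k).succ))) := by
      intro j
      by_cases hj : j = Fin.last (m + 1)
      · subst hj
        have e1 : A 0 (Fin.last (m + 1)).succ = α * B 0 (Fin.last (m + 1)).succ +
            β * C 0 (Fin.last (m + 1)).succ := by
          have := h3 0 (Fin.last_pos)
          rw [Fin.succ_last]
          exact this
        have e2 : ∀ k l : Fin (m + 1), k < l →
            ((Fin.last (m + 1)).succAbove k).succ < ((Fin.last (m + 1)).succAbove l).succ := by
          intro k l hkl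
          rw [Fin.succ_lt_succ_iff]
          exact Fin.strictMono_succAbove _ hkl
        have e3 : ∀ l : Fin (m + 1), ((Fin.last (m + 1)).succAbove l).succ ≠
            Fin.last (m + 2) := by
          intro l h
          have h0 : ((Fin.last (m + 1)).succAbove l).succ = (Fin.last (m + 1)).succ := by
            rw [h, Fin.succ_last]
          have h' := Fin.succ_injective _ h0
          exact Fin.succAbove_ne _ _ h'
        have e4 : pf (m + 1) (A.submatrix (fun k => ((Fin.last (m + 1)).succAbove k).succ)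
            (fun k => ((Fin.last (m + 1)).succAbove k).succ)) =
            pf (m + 1) (B.submatrix (fun k => ((Fin.last (m + 1)).succAbove k).succ)
            (fun k => ((Fin.last (m + 1)).succAbove k).succ)) :=
          pf_congr _ _ _ (fun k l hkl => h1 _ _ (e2 k l hkl) (e3 l))
        have e5 : pf (m + 1) (A.submatrix (fun k => ((Fin.last (m + 1)).succAbove k).succ)
            (fun k => ((Fin.last (m + 1)).succAbove k).succ)) =
            pf (m + 1) (C.submatrix (fun k => ((Fin.last (m + 1)).succAbove k).succ)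
            (fun k => ((Fin.last (m + 1)).succAbove k).succ)) :=
          pf_congr _ _ _ (fun k l hkl => h2 _ _ (e2 k l hkl) (e3 l))
        rw [← e4, ← e5, e1]
        ring
      · have e0 : j.succ ≠ Fin.last (m + 2) := by
          intro h
          rw [← Fin.succ_last] at h
          exact hj (Fin.succ_injective _ h)
        have e1 : A 0 j.succ = B 0 j.succ := h1 _ _ (Fin.succ_pos j) e0
        have e2 : A 0 j.succ = C 0 j.succ := h2 _ _ (Fin.succ_pos j) e0
        have e3 : ∀ k l : Fin (m + 1), k < l → (j.succAbove k).succ < (j.succAbove l).succ := by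
          intro k l hkl
          rw [Fin.succ_lt_succ_iff]
          exact Fin.strictMono_succAbove _ hkl
        have e4 : j.succAbove (Fin.last m) = Fin.last (m + 1) := by
          obtain ⟨j', rfl⟩ := Fin.exists_castSucc_eq.2 hj
          rw [Fin.succAbove_of_lt_succ]
          · exact Fin.succ_last m
          · rw [Fin.succ_last]
            exact Fin.castSucc_lt_last _
        have e5 : ∀ l : Fin (m + 1), l ≠ Fin.last m → (j.succAbove l).succ ≠
            Fin.last (m + 2) := by
          intro l hl h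
          rw [← Fin.succ_last] at h
          have h' := Fin.succ_injective _ h
          rw [← e4] at h'
          exact hl (Fin.succAbove_right_injective h')
        have ih := pf_lin m (A.submatrix (fun k => (j.succAbove k).succ)
            (fun k => (j.succAbove k).succ)) (B.submatrix (fun k => (j.succAbove k).succ)
            (fun k => (j.succAbove k).succ)) (C.submatrix (fun k => (j.succAbove k).succ)
            (fun k => (j.succAbove k).succ)) α β
            (fun k l hkl hl => h1 _ _ (e3 k l hkl) (e5 l hl))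
            (fun k l hkl hl => h2 _ _ (e3 k l hkl) (e5 l hl))
            (fun k hk => by
              simp only [Matrix.submatrix_apply]
              rw [e4, Fin.succ_last]
              apply h3
              have := e3 k _ hk
              rw [e4, Fin.succ_last] at this
              exact this)
        rw [ih, ← e1, ← e2]
        ring
    simp only [pf]
    rw [Finset.sum_congr rfl (fun j _ => key j), Finset.sum_add_distrib, Finset.mul_sum,
      Finset.mul_sum]

theorem arr_cc (m : ℕ) (w : ℕ → ℚ) (i j : Fin m) :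
    arr (m + 1) w i.castSucc j.castSucc = c i j := by
  have hi := i.isLt
  have hj := j.isLt
  unfold arr
  rcases lt_trichotomy i j with h | h | h
  · have h' : i.castSucc < j.castSucc := by simpa using h
    rw [if_pos h', if_neg (by simp; omega)]
    simp
  · subst h
    simp [c_self]
  · have h' : j.castSucc < i.castSucc := by simpa using h
    rw [if_neg (not_lt.2 h'.le), if_pos h', if_neg (by simp; omega)]
    simp
    exact (c_anti _ _).symm

theorem arr_cl (m : ℕ) (w : ℕ → ℚ) (i : Fin m) :
    arr (m + 1) w i.castSucc (Fin.last m) = w i := by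
  unfold arr
  rw [if_pos (Fin.castSucc_lt_last i)]
  simp

theorem arr_lc (m : ℕ) (w : ℕ → ℚ) (j : Fin m) :
    arr (m + 1) w (Fin.last m) j.castSucc = - w j := by
  unfold arr
  rw [if_neg (not_lt.2 (Fin.castSucc_lt_last j).le), if_pos (Fin.castSucc_lt_last j)]
  simp

theorem arr_ll (m : ℕ) (w : ℕ → ℚ) :
    arr (m + 1) w (Fin.last m) (Fin.last m) = 0 := by
  unfold arr
  simp

theorem arr_anti (m : ℕ) (w : ℕ → ℚ) (i j : Fin m) : arr m w i j = - arr m w j i := by
  unfold arr
  rcases lt_trichotomy i j with h | h | h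
  · simp [h, not_lt.2 h.le]
  · subst h; simp
  · simp [h, not_lt.2 h.le]

theorem pf_arr_lin (m : ℕ) (w w1 w2 : ℕ → ℚ) (α β : ℚ) (h : ∀ a, w a = α * w1 a + β * w2 a) :
    pf (m + 1) (arr (m + 1) w) = α * pf (m + 1) (arr (m + 1) w1)
      + β * pf (m + 1) (arr (m + 1) w2) := by
  have e : ∀ u v : ℕ → ℚ, ∀ i j : Fin (m + 1), i < j → j ≠ Fin.last m →
      arr (m + 1) u i j = arr (m + 1) v i j := by
    intro u v i j hij hj
    obtain ⟨j', rfl⟩ := Fin.exists_castSucc_eq.2 hj
    have hi : i ≠ Fin.last m := by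
      intro hi
      rw [hi] at hij
      exact absurd hij (not_lt.2 (Fin.le_last _))
    obtain ⟨i', rfl⟩ := Fin.exists_castSucc_eq.2 hi
    rw [arr_cc, arr_cc]
  apply pf_lin m _ _ _ α β (e _ _) (e _ _)
  intro i hi
  obtain ⟨i', rfl⟩ := Fin.exists_castSucc_eq.2 hi.ne
  rw [arr_cl, arr_cl, arr_cl, h]

/-- The matrix of the substitution `x ↦ 1 - x`, extended by `1` in the last coordinate. -/
def P (m : ℕ) : Matrix (Fin (m + 1)) (Fin (m + 1)) ℚ := fun i j =>
  if j = Fin.last m then (if i = Fin.last m then 1 else 0)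
  else if i = Fin.last m then 0 else (-1) ^ (j : ℕ) * ((i : ℕ).choose (j : ℕ) : ℚ)

theorem P_cc (m : ℕ) (i j : Fin m) :
    P m i.castSucc j.castSucc = (-1) ^ (j : ℕ) * ((i : ℕ).choose (j : ℕ) : ℚ) := by
  unfold P
  rw [if_neg (Fin.castSucc_lt_last j).ne, if_neg (Fin.castSucc_lt_last i).ne]
  rfl

theorem P_cl (m : ℕ) (i : Fin m) : P m i.castSucc (Fin.last m) = 0 := by
  unfold P
  rw [if_pos rfl, if_neg (Fin.castSucc_lt_last i).ne]

theorem P_lc (m : ℕ) (j : Fin m) : P m (Fin.last m) j.castSucc = 0 := by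
  unfold P
  rw [if_neg (Fin.castSucc_lt_last j).ne, if_pos rfl]

theorem P_ll (m : ℕ) : P m (Fin.last m) (Fin.last m) = 1 := by
  unfold P
  simp

theorem P_det (n : ℕ) : (P (2 * n + 1)).det = (-1) ^ n := by
  rw [Matrix.det_of_isLowerTriangular, Fin.prod_univ_castSucc, P_ll, mul_one]
  · have h : ∀ i : Fin (2 * n + 1), P (2 * n + 1) i.castSucc i.castSucc = (-1) ^ (i : ℕ) := by
      intro i
      rw [P_cc, Nat.choose_self]
      simp
    rw [Finset.prod_congr rfl (fun i _ => h i)]
    rw [Fin.prod_univ_eq_prod_range (fun i => (-1 : ℚ) ^ i) (2 * n + 1)]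
    induction n with
    | zero => simp
    | succ n ih =>
      have e : 2 * (n + 1) + 1 = 2 * n + 1 + 1 + 1 := by ring
      rw [e, Finset.prod_range_succ, Finset.prod_range_succ, ih (by
        intro i
        rw [P_cc, Nat.choose_self]
        simp)]
      have e1 : (-1 : ℚ) ^ (2 * n + 1) = -1 := by
        rw [pow_succ, pow_mul]; simp
      have e2 : (-1 : ℚ) ^ (2 * n + 1 + 1) = 1 := by
        rw [pow_succ, e1]; norm_num
      rw [e1, e2, pow_succ]
      ring
  · intro i j hij
    have hij' : i < j := hij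
    induction j using Fin.lastCases with
    | last => 
      obtain ⟨i', rfl⟩ := Fin.exists_castSucc_eq.2 hij'.ne
      exact P_cl _ _
    | cast j =>
      have hi : i ≠ Fin.last _ := by
        intro h
        rw [h] at hij'
        exact absurd hij' (not_lt.2 (Fin.le_last _))
      obtain ⟨i', rfl⟩ := Fin.exists_castSucc_eq.2 hi
      rw [P_cc, Nat.choose_eq_zero_of_lt]
      · simp
      · simpa using hij'

/-- Binomial transform. -/
noncomputable def tr (w : ℕ → ℚ) (a : ℕ) : ℚ :=
  ∑ k ∈ range (a + 1), (-1) ^ k * (a.choose k : ℚ) * w k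

theorem tr_ext (w : ℕ → ℚ) (a m : ℕ) (h : a < m) :
    ∑ k ∈ range m, (-1) ^ k * (a.choose k : ℚ) * w k = tr w a := by
  unfold tr
  symm
  apply Finset.sum_subset
  · intro x hx
    rw [Finset.mem_range] at *
    omega
  · intro x _ hx2
    rw [Finset.mem_range] at hx2
    rw [Nat.choose_eq_zero_of_lt (by omega)]
    simp

theorem L_pow_left (a : ℕ) (q : MvPolynomial (Fin 2) ℚ) :
    L ((1 - MvPolynomial.X 0) ^ a * q) =
      ∑ k ∈ range (a + 1), (-1) ^ k * (a.choose k : ℚ) * L (MvPolynomial.X 0 ^ k * q) := by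
  have h : (1 - MvPolynomial.X 0 : MvPolynomial (Fin 2) ℚ) ^ a * q =
      ∑ k ∈ range (a + 1), ((-1) ^ k * (a.choose k : ℚ)) • (MvPolynomial.X 0 ^ k * q) := by
    rw [sub_eq_neg_add, add_pow, Finset.sum_mul]
    apply Finset.sum_congr rfl
    intro k _
    rw [one_pow, mul_one, neg_pow, MvPolynomial.smul_eq_C_mul]
    simp only [map_mul, map_pow, map_neg, map_one, map_natCast]
    ring
  rw [h, map_sum]
  apply Finset.sum_congr rfl
  intro k _
  rw [map_smul, smul_eq_mul]

theorem L_pow_right (b : ℕ) (q : MvPolynomial (Fin 2) ℚ) :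
    L (q * (1 - MvPolynomial.X 1) ^ b) =
      ∑ k ∈ range (b + 1), (-1) ^ k * (b.choose k : ℚ) * L (q * MvPolynomial.X 1 ^ k) := by
  have h : q * (1 - MvPolynomial.X 1 : MvPolynomial (Fin 2) ℚ) ^ b =
      ∑ k ∈ range (b + 1), ((-1) ^ k * (b.choose k : ℚ)) • (q * MvPolynomial.X 1 ^ k) := by
    rw [sub_eq_neg_add, add_pow, Finset.mul_sum]
    apply Finset.sum_congr rfl
    intro k _
    rw [one_pow, mul_one, neg_pow, MvPolynomial.smul_eq_C_mul]
    simp only [map_mul, map_pow, map_neg, map_one, map_natCast]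
    ring
  rw [h, map_sum]
  apply Finset.sum_congr rfl
  intro k _
  rw [map_smul, smul_eq_mul]

theorem T_sum (a b : ℕ) : tr (fun j => tr (fun k => c j k) b) a = - c a b := by
  rw [← T_eq, T, L_pow_left]
  unfold tr
  apply Finset.sum_congr rfl
  intro k _
  rw [L_pow_right]
  congr 1
  apply Finset.sum_congr rfl
  intro l _
  rw [L_mon]

theorem conj_eq (m : ℕ) (w : ℕ → ℚ) :
    P m * arr (m + 1) w * (P m).transpose = - arr (m + 1) (fun a => - tr w a) := by
  ext i j
  rw [Matrix.mul_apply, Matrix.neg_apply]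
  simp only [Matrix.transpose_apply]
  induction i using Fin.lastCases with
  | last =>
    have h1 : ∀ k : Fin m, (P m * arr (m + 1) w) (Fin.last m) k.castSucc = - w k := by
      intro k
      rw [Matrix.mul_apply, Fin.sum_univ_castSucc, P_ll, arr_lc]
      simp [P_lc]
    have h2 : (P m * arr (m + 1) w) (Fin.last m) (Fin.last m) = 0 := by
      rw [Matrix.mul_apply, Fin.sum_univ_castSucc, P_ll, arr_ll]
      simp [P_lc]
    rw [Fin.sum_univ_castSucc, h2, zero_mul, add_zero]
    induction j using Fin.lastCases with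
    | last =>
      rw [arr_ll]
      simp [P_lc]
    | cast j =>
      rw [arr_lc]
      simp only [h1, P_cc]
      have := Fin.sum_univ_eq_sum_range
        (fun k => - w k * ((-1) ^ k * ((j : ℕ).choose k : ℚ))) m
      rw [this, ← tr_ext w j m j.isLt, neg_neg, ← Finset.sum_neg_distrib]
      apply Finset.sum_congr rfl
      intro k _
      ring
  | cast i =>
    have h1 : ∀ k : Fin m, (P m * arr (m + 1) w) i.castSucc k.castSucc =
        tr (fun l => c l k) i := by
      intro k
      rw [Matrix.mul_apply, Fin.sum_univ_castSucc, P_cl, zero_mul, add_zero]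
      simp only [P_cc, arr_cc]
      have := Fin.sum_univ_eq_sum_range
        (fun l => (-1) ^ l * ((i : ℕ).choose l : ℚ) * c l k) m
      rw [this, tr_ext (fun l => c l k) i m i.isLt]
    have h2 : (P m * arr (m + 1) w) i.castSucc (Fin.last m) = tr w i := by
      rw [Matrix.mul_apply, Fin.sum_univ_castSucc, P_cl, zero_mul, add_zero]
      simp only [P_cc, arr_cl]
      have := Fin.sum_univ_eq_sum_range
        (fun l => (-1) ^ l * ((i : ℕ).choose l : ℚ) * w l) m
      rw [this, tr_ext w i m i.isLt]
    rw [Fin.sum_univ_castSucc, h2]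
    simp only [h1]
    induction j using Fin.lastCases with
    | last =>
      rw [arr_cl, P_ll]
      simp [P_lc]
    | cast j =>
      rw [arr_cc, P_cl]
      simp only [P_cc, mul_zero, add_zero]
      have := Fin.sum_univ_eq_sum_range
        (fun k => tr (fun l => c l k) i * ((-1) ^ k * ((j : ℕ).choose k : ℚ))) m
      rw [this, ← T_sum i j]
      unfold tr
      have e1 : ∀ l ∈ range ((i : ℕ) + 1), (-1 : ℚ) ^ l * ((i : ℕ).choose l : ℚ) *
          ∑ k ∈ range ((j : ℕ) + 1), (-1 : ℚ) ^ k * ((j : ℕ).choose k : ℚ) * c l k =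
          ∑ k ∈ range m, (-1 : ℚ) ^ l * ((i : ℕ).choose l : ℚ) *
            ((-1 : ℚ) ^ k * ((j : ℕ).choose k : ℚ) * c l k) := by
        intro l _
        have := tr_ext (fun k => c l k) j m j.isLt
        unfold tr at this
        rw [← this, Finset.mul_sum]
      rw [Finset.sum_congr rfl e1, Finset.sum_comm]
      apply Finset.sum_congr rfl
      intro k _
      rw [Finset.sum_mul]
      apply Finset.sum_congr rfl
      intro l _
      ring

theorem pf_tr (n : ℕ) (w : ℕ → ℚ) :
    pf (2 * n + 1 + 1) (arr (2 * n + 1 + 1) w) =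
      pf (2 * n + 1 + 1) (arr (2 * n + 1 + 1) (tr w)) := by
  have h := pf_gram (arr (2 * n + 1 + 1) w) (arr_anti _ _) (P (2 * n + 1))
  rw [conj_eq, pf_neg, P_det] at h
  have h2 : pf (2 * n + 1 + 1) (arr (2 * n + 1 + 1) (fun a => - tr w a)) =
      - pf (2 * n + 1 + 1) (arr (2 * n + 1 + 1) (tr w)) := by
    rw [pf_arr_lin (2 * n + 1) (fun a => - tr w a) (tr w) (tr w) (-1) 0 (by
      intro a; ring)]
    ring
  have h3 : (2 * n + 1 + 1) / 2 = n + 1 := by omega
  rw [h2, h3] at h
  have h4 : ((-1 : ℚ) ^ n) * ((-1 : ℚ) ^ n) = 1 := by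
    rw [← mul_pow]; norm_num
  have h5 : (-1 : ℚ) ^ n * pf (2 * n + 1 + 1) (arr (2 * n + 1 + 1) (tr w)) =
      (-1) ^ n * pf (2 * n + 1 + 1) (arr (2 * n + 1 + 1) w) := by
    rw [← h, pow_succ]
    ring
  have h6 := congrArg (fun z => (-1 : ℚ) ^ n * z) h5
  simp only [← mul_assoc, h4, one_mul] at h6
  exact h6.symm

theorem tr_geom (t : ℚ) (a : ℕ) : tr (fun k => t ^ k) a = (1 - t) ^ a := by
  unfold tr
  rw [sub_eq_neg_add, add_pow]
  apply Finset.sum_congr rfl
  intro k _
  rw [one_pow, mul_one, neg_pow]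
  ring

theorem pf_geom (n : ℕ) (t : ℚ) :
    pf (2 * n + 2) (arr (2 * n + 2) (fun a => t ^ a)) =
      pf (2 * n + 2) (arr (2 * n + 2) (fun a => (1 - t) ^ a)) := by
  have h := pf_tr n (fun a => t ^ a)
  have e : tr (fun a => t ^ a) = fun a => (1 - t) ^ a := by
    funext a
    exact tr_geom t a
  rw [e] at h
  exact h

theorem pf_avg (n : ℕ) :
    pf (2 * n + 2) (arr (2 * n + 2) (fun a => (-1) ^ a)) =
      pf (2 * n + 2) (arr (2 * n + 2) (fun a => ((-1) ^ a + 2 ^ a) / 2)) := by
  have h := pf_geom n (-1)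
  have e : (1 - (-1 : ℚ)) = 2 := by norm_num
  rw [e] at h
  have h2 := pf_arr_lin (2 * n + 1) (fun a => ((-1) ^ a + 2 ^ a) / 2) (fun a => (-1) ^ a)
    (fun a => 2 ^ a) (1 / 2) (1 / 2) (by intro a; ring)
  have h3 : pf (2 * n + 2) (arr (2 * n + 2) (fun a => ((-1) ^ a + 2 ^ a) / 2)) =
      1 / 2 * pf (2 * n + 2) (arr (2 * n + 2) (fun a => (-1) ^ a)) +
      1 / 2 * pf (2 * n + 2) (arr (2 * n + 2) (fun a => 2 ^ a)) := h2
  rw [h3, ← h]
  ring

end Pool.Agent.N689.OsasmPf
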